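import Pool.Agent.Helper50.EX.Stm

set_option autoImplicit false

namespace Pool.Agent.Helper32.EX

open Polynomial Finset Pool.Agent.Helper50.EX

theorem al4 (hAL1 : S_AL1) : S_AL4 := by
  intro p _ k M _ _ _ _ _ G _ _ C Q σ I τ X hLo al y w hy hexp hw hunit hinj hDX ρ' hρ
  classical
  obtain ⟨t, ht, P, hP, q, hq, hP1⟩ := hAL1 p k M G C Q σ I τ X hLo al y w hy hexp hw
  obtain ⟨t0, c0, ht0, hc0⟩ := hy
  obtain ⟨t2, s2, ht2, hs2, h2⟩ := hunit
  haveI := hLo.prime
  haveI : Fintype G := Fintype.ofFinite G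
  have hine : ∀ g ∈ I, ∀ c : C, ρ' g c - c ∈ Q := by
    intro g hg c
    obtain ⟨d, hd, hd'⟩ := hLo.ine g hg c
    have : d = ρ' g c - c := by
      apply Subtype.ext
      rw [hd', AddSubgroupClass.coe_sub, hρ]
    rw [← this]
    exact hd
  have hnot : ∀ g ∈ I, ∀ c : C, c ∉ Q → ρ' g c ∉ Q := by
    intro g hg c hc h
    apply hc
    have := Q.sub_mem h (hine g hg c)
    rwa [sub_sub_cancel] at this
  -- the norm of the denominator
  set tt : C := ∏ g : I, ρ' (g : G) t0 with htt
  have htt_inv : ∀ h ∈ I, ρ' h tt = tt := by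
    intro h hh
    rw [htt, map_prod]
    refine Fintype.prod_equiv (Equiv.mulLeft (⟨h, hh⟩ : I)) _ _ ?_
    intro g
    simp only [Equiv.coe_mulLeft, Subgroup.coe_mul, map_mul, RingAut.mul_apply]
  have htt_not : tt ∉ Q := by
    rw [htt]
    intro h
    rw [Ideal.IsPrime.prod_mem_iff] at h
    obtain ⟨g, -, hg⟩ := h
    exact hnot g g.2 t0 ht0 hg
  -- the element b
  obtain ⟨r, hr⟩ : ∃ r : C, tt = t0 * r := by
    have h1 : ρ' ((1 : I) : G) t0 ∣ tt := Finset.dvd_prod_of_mem _ (Finset.mem_univ _)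
    rw [OneMemClass.coe_one, map_one, RingAut.one_apply] at h1
    exact h1
  have hb : ((r * c0 : C) : M) = tt * y := by
    rw [hr, MulMemClass.coe_mul, MulMemClass.coe_mul, hc0]
    ring
  have hxQ : ∀ g, al g • X ∈ Q := fun g => by
    rw [Algebra.smul_def]
    exact Q.mul_mem_left _ hLo.XQ
  refine ⟨fun g => al g • X, r * c0, t, Polynomial.C tt * P, fun g _ => hxQ g, ?_, ?_, ht, ?_, ?_⟩
  · intro g hg h hh hgh
    apply hinj g hg h hh
    have h1 : ((al g • X : C) : M) = ((al h • X : C) : M) := congrArg _ hgh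
    have h3 : (al g - al h) • (X : M) = 0 := by
      rw [sub_smul]
      have e1 : ((al g • X : C) : M) = al g • (X : M) := rfl
      have e2 : ((al h • X : C) : M) = al h • (X : M) := rfl
      rw [← e1, ← e2, h1, sub_self]
    rw [Algebra.smul_def] at h3
    rcases mul_eq_zero.mp h3 with h4 | h4
    · have := (algebraMap k M).injective (h4.trans (map_zero _).symm)
      exact sub_eq_zero.mp this
    · exact absurd h4 hLo.X0
  · rw [Polynomial.coeff_C_mul]
    intro h
    rcases hLo.prime.mem_or_mem h with h | h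
    · exact htt_not h
    · -- t2 * P.coeff 1 = t * s2 + t2 * q
      have h3 : t2 * P.coeff 1 = t * s2 + t2 * q := by
        apply Subtype.ext
        push_cast
        rw [hP1, h2]
        ring
      have h4 : t * s2 ∈ Q := by
        have h5 : t * s2 = t2 * P.coeff 1 - t2 * q := by rw [h3]; ring
        rw [h5]
        exact Q.sub_mem (Q.mul_mem_left _ h) (Q.mul_mem_left _ hq)
      rcases hLo.prime.mem_or_mem h4 with h5 | h5
      · exact ht h5
      · exact hs2 h5
  · intro g hg
    apply Subtype.ext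
    have e1 : σ g (tt : M) = tt := by rw [← hρ, htt_inv g hg]
    rw [Polynomial.eval_mul, Polynomial.eval_C, MulMemClass.coe_mul, MulMemClass.coe_mul, hP g hg,
      hρ, hb, map_mul, e1]
    ring
  · intro c
    obtain ⟨s, hs, R, hR⟩ := hDX c
    refine ⟨s, hs, R, fun g hg => ?_⟩
    apply Subtype.ext
    rw [MulMemClass.coe_mul, hρ]
    exact hR g hg

end Pool.Agent.Helper32.EX
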